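import Pool.Agent.Helper30.SY.St
import Pool.Agent.Helper85.IA.Basic

/-!
# Project SY, module MAR: marginals of the random types
-/

set_option autoImplicit false

namespace Pool.Agent.Helper57.SY

open Finset Pool.Agent.Helper30.SY Pool.Agent.Helper93.IA

section

variable {ι κ : Type} [Fintype ι] [DecidableEq ι] [Fintype κ]

private lemma ex_prod (w g : ι → κ → ℝ) :
    Ex (κ := fun _ => κ) w (fun σ => ∏ i, g i (σ i)) = ∏ i, ∑ u, w i u * g i u := by
  unfold Ex
  have h := Finset.prod_univ_sum (fun _ : ι => (univ : Finset κ)) (fun i u => w i u * g i u)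
  rw [Fintype.piFinset_univ] at h
  rw [h]
  exact sum_congr rfl fun σ _ => by rw [prod_mul_distrib]

private lemma ex_coord (w : ι → κ → ℝ) (hw : ∀ i, ∑ u, w i u = 1) (p : ι) (h : κ → ℝ) :
    Ex (κ := fun _ => κ) w (fun σ => h (σ p)) = ∑ u, w p u * h u := by
  have h1 := ex_prod w (fun i u => if i = p then h u else 1)
  have e1 : (fun σ : ι → κ => ∏ i, (if i = p then h (σ i) else 1)) = fun σ => h (σ p) := by
    funext σ
    rw [Finset.prod_ite_eq' univ p (fun i => h (σ i)), if_pos (mem_univ _)]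
  rw [e1] at h1
  rw [h1, Finset.prod_eq_single p]
  · simp
  · intro i _ hi
    simp [hi, hw]
  · intro hp
    exact absurd (mem_univ _) hp

private lemma ex_two (w : ι → κ → ℝ) (hw : ∀ i, ∑ u, w i u = 1) {p q : ι} (hpq : p ≠ q)
    (h h' : κ → ℝ) :
    Ex (κ := fun _ => κ) w (fun σ => h (σ p) * h' (σ q)) =
      (∑ u, w p u * h u) * ∑ u, w q u * h' u := by
  have h1 := ex_prod w (fun i u => (if i = p then h u else 1) * (if i = q then h' u else 1))
  have e1 : (fun σ : ι → κ => ∏ i, ((if i = p then h (σ i) else 1) *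
      (if i = q then h' (σ i) else 1))) = fun σ => h (σ p) * h' (σ q) := by
    funext σ
    rw [prod_mul_distrib, Finset.prod_ite_eq' univ p (fun i => h (σ i)), if_pos (mem_univ _),
      Finset.prod_ite_eq' univ q (fun i => h' (σ i)), if_pos (mem_univ _)]
  rw [e1] at h1
  rw [h1]
  have e2 : ∀ i, ∑ u, w i u * ((if i = p then h u else 1) * (if i = q then h' u else 1)) =
      (if i = p then ∑ u, w i u * h u else 1) * (if i = q then ∑ u, w i u * h' u else 1) := by
    intro i
    by_cases hp : i = p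
    · have hq : i ≠ q := by rw [hp]; exact hpq
      simp [hp, hpq]
    · by_cases hq : i = q
      · simp [hq, hpq.symm]
      · simp [hp, hq, hw]
  simp only [e2]
  rw [prod_mul_distrib, Finset.prod_ite_eq' univ p (fun i => ∑ u, w i u * h u),
    if_pos (mem_univ _), Finset.prod_ite_eq' univ q (fun i => ∑ u, w i u * h' u),
    if_pos (mem_univ _)]

end

private lemma sum_bits (y : ℝ) (τ : Fin 3) (h : Bool → ℝ) :
    ∑ β : Fin 3 → Bool, (∏ i, (if β i then y else 1 - y)) * h (β τ) =
      y * h true + (1 - y) * h false := by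
  have h1 := ex_coord (ι := Fin 3) (κ := Bool) (fun _ u => if u then y else 1 - y)
    (fun _ => by simp) τ h
  unfold Ex at h1
  rw [h1]
  simp

private lemma sum_bits_one (y : ℝ) :
    ∑ β : Fin 3 → Bool, (∏ i, (if β i then y else 1 - y)) = 1 := by
  have := sum_bits y 0 (fun _ => 1)
  simp only [mul_one] at this
  rw [this]
  ring

private lemma sum_pr (y : ℝ) (τ : Fin 3) (F : Fin 3 → Bool → ℝ) :
    ∑ u : Sta, pr y u * F u.1 (u.2 τ) =
      1 / 3 * ∑ k : Fin 3, (y * F k true + (1 - y) * F k false) := by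
  rw [Fintype.sum_prod_type, mul_sum]
  refine sum_congr rfl fun k _ => ?_
  rw [← sum_bits y τ (F k), mul_sum]
  refine sum_congr rfl fun β _ => ?_
  unfold pr
  ring

private lemma sum_pr_one (y : ℝ) : ∑ u : Sta, pr y u = 1 := by
  have := sum_pr y 0 (fun _ _ => 1)
  simp only [mul_one] at this
  rw [this]
  simp

private lemma marg (y : ℝ) (τ : Fin 3) (z : ℤ) :
    ∑ u : Sta, pr y u * iv z u τ =
      if z = 1 then (1 + 2 * y) / 3 else if z = -1 then 2 * y / 3 else y := by
  have h := sum_pr y τ (fun k b => if z = 1 then (if τ = k ∨ b = true then 1 else 0)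
    else if z = -1 then (if τ ≠ k ∧ b = true then 1 else 0) else (if b = true then 1 else 0))
  have e : ∀ u : Sta, iv z u τ = (fun k b => if z = 1 then (if τ = k ∨ b = true then 1 else 0)
    else if z = -1 then (if τ ≠ k ∧ b = true then 1 else 0) else (if b = true then (1 : ℝ) else 0))
      u.1 (u.2 τ) := fun u => rfl
  simp only [e]
  rw [h]
  by_cases h1 : z = 1
  · simp only [if_pos h1]
    fin_cases τ <;> simp [Fin.sum_univ_three] <;> ring
  · by_cases h2 : z = -1
    · simp only [if_neg h1, if_pos h2]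
      fin_cases τ <;> simp [Fin.sum_univ_three] <;> ring
    · simp only [if_neg h1, if_neg h2]
      simp

private lemma fl_nonneg {n : ℕ} {X : Fin n → Fin n → Fin n → ℝ} (h : ∀ a b c, 0 ≤ X a b c)
    (u v : Fin n) : 0 ≤ fl X u v :=
  sum_nonneg fun w _ => add_nonneg (add_nonneg (h _ _ _) (h _ _ _)) (h _ _ _)

private lemma fl_diag {n : ℕ} {X : Fin n → Fin n → Fin n → ℝ}
    (h : ∀ a b c, X a b c ≠ 0 → a ≠ b ∧ b ≠ c ∧ c ≠ a) (u : Fin n) : fl X u u = 0 := by
  refine sum_eq_zero fun w _ => ?_
  have h1 : X u u w = 0 := by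
    by_contra hc
    exact (h _ _ _ hc).1 rfl
  have h2 : X w u u = 0 := by
    by_contra hc
    exact (h _ _ _ hc).2.1 rfl
  have h3 : X u w u = 0 := by
    by_contra hc
    exact (h _ _ _ hc).2.2 rfl
  rw [h1, h2, h3]
  ring

private lemma yy_bd {n : ℕ} {s : Fin n → Fin n → ℤ} {X : Fin n → Fin n → Fin n → ℝ} {L θ : ℝ}
    (hX : SFill s X L θ) (p : Fin n × Fin n) : 0 ≤ yy s X p ∧ yy s X p ≤ 1 := by
  have n1 := fl_nonneg hX.nn p.1 p.2
  have n2 := fl_nonneg hX.nn p.2 p.1
  unfold yy
  by_cases hp : p.1 = p.2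
  · have h0 : fl X p.1 p.2 = 0 := by
      rw [hp]
      exact fl_diag hX.sp _
    have h0' : fl X p.2 p.1 = 0 := by
      rw [hp]
      exact fl_diag hX.sp _
    rw [h0, h0']
    split_ifs <;> norm_num
  · have hm := hX.mn p.1 p.2
    have hb := hX.bd p.1 p.2 hp
    split_ifs with h
    · rw [h] at hb
      push_cast at hb
      constructor
      · positivity
      · rcases hm with hm | hm <;> linarith
    · constructor
      · have : 0 ≤ min (fl X p.1 p.2) (fl X p.2 p.1) := le_min n1 n2
        positivity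
      · have h1 : min (fl X p.1 p.2) (fl X p.2 p.1) ≤ 7 / 4 := by
          rcases hm with hm | hm
          · exact (min_le_left _ _).trans hm
          · exact (min_le_right _ _).trans hm
        linarith

private lemma yy_co {n : ℕ} {s : Fin n → Fin n → ℤ} {X : Fin n → Fin n → Fin n → ℝ} {L θ : ℝ}
    (hs : Circ s) (hX : SFill s X L θ) {a b : Fin n} (hab : a ≠ b) :
    yy s X (co a b) = if s a b = 0 then fl X a b / 3 else min (fl X a b) (fl X b a) / 2 := by
  unfold co
  split_ifs with h1 h2 h2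
  · unfold yy
    rw [if_pos h2]
  · unfold yy
    rw [if_neg h2]
  · unfold yy
    have h3 := hX.bd a b hab
    have h4 := hs.sk a b
    rw [h2] at h3 h4
    push_cast at h3
    simp only
    rw [if_pos (by omega)]
    linarith
  · unfold yy
    have h4 := hs.sk a b
    simp only
    rw [if_neg (by omega), min_comm]

private lemma mean {n : ℕ} {s : Fin n → Fin n → ℤ} {X : Fin n → Fin n → Fin n → ℝ} {L θ : ℝ}
    (hs : Circ s) (hX : SFill s X L θ) {a b : Fin n} (hab : a ≠ b) (τ : Fin 3) :
    ∑ u : Sta, pr (yy s X (co a b)) u * iv (s a b) u τ = fl X a b / 3 := by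
  rw [marg, yy_co hs hX hab]
  have hb := hX.bd a b hab
  rcases hs.v1 a b with h | h | h
  · rw [h] at hb ⊢
    push_cast at hb
    have hm : min (fl X a b) (fl X b a) = fl X a b := min_eq_left (by linarith)
    rw [if_neg (by norm_num), if_pos rfl, if_neg (by norm_num), hm]
    ring
  · rw [h, if_neg (by norm_num), if_neg (by norm_num), if_pos rfl]
  · rw [h] at hb ⊢
    push_cast at hb
    have hm : min (fl X a b) (fl X b a) = fl X b a := min_eq_right (by linarith)
    rw [if_pos rfl, if_neg (by norm_num), hm]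
    linarith

private lemma ms_eq {n : ℕ} (s : Fin n → Fin n → ℤ) (σ : Fin n × Fin n → Sta) (τ : Fin 3)
    {a b : Fin n} (hab : a ≠ b) : ms s σ τ a b = iv (s a b) (σ (co a b)) τ := by
  unfold ms
  rw [if_neg hab]

private lemma co_ne {n : ℕ} {a b c : Fin n} (hab : a ≠ b) (hbc : b ≠ c) (hca : c ≠ a) :
    co b c ≠ co c a := by
  unfold co
  intro h
  split_ifs at h <;> rw [Prod.mk.injEq] at h
  · exact hbc h.1
  · exact hab h.1.symm
  · exact hab h.2.symm
  · exact hca h.1

theorem hMAR : StMAR := by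
  intro n s X L θ _ hs hX
  have hw : ∀ p : Fin n × Fin n, ∑ u : Sta, pr (yy s X p) u = 1 := fun p => sum_pr_one _
  refine ⟨?_, hw, ?_, ?_⟩
  · intro p u
    obtain ⟨h1, h2⟩ := yy_bd hX p
    unfold pr
    apply mul_nonneg (by norm_num)
    apply prod_nonneg
    intro i _
    split_ifs
    · exact h1
    · linarith
  · intro a b τ hab
    have h1 := ex_coord (fun p : Fin n × Fin n => pr (yy s X p)) hw (co a b)
      (fun u => iv (s a b) u τ)
    rw [mean hs hX hab τ] at h1
    rw [← h1]
    congr 1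
    funext σ
    exact ms_eq s σ τ hab
  · intro a b c τ τ' hab hbc hca
    have h1 := ex_two (fun p : Fin n × Fin n => pr (yy s X p)) hw (co_ne hab hbc hca)
      (fun u => iv (s b c) u τ) (fun u => iv (s c a) u τ')
    rw [mean hs hX hbc τ, mean hs hX hca τ'] at h1
    rw [← h1]
    congr 1
    funext σ
    rw [ms_eq s σ τ hbc, ms_eq s σ τ' hca]

end Pool.Agent.Helper57.SY
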